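import Mathlib
import Pool.Agent.Q123.US.Six

/-!
# Two solutions with dependent logarithmic derivatives
-/

set_option autoImplicit false

namespace Q123.SR

open Q123.US

/-- If `g + h = 1`, `g₁ + h₁ = 1` and the logarithmic derivatives of `g₁`, `h₁` are rational
combinations of those of `g`, `h`, then `(g₁, h₁)` is one of the six pairs obtained from
`(g, h)`. -/
theorem orbit_core (D : Derivation ℚ ℂ ℂ) {g h g1 h1 : ℂ} (hgh : g + h = 1) (h11 : g1 + h1 = 1)
    (hg : g ≠ 0) (hh : h ≠ 0) (hg1 : g1 ≠ 0) (hh1 : h1 ≠ 0) (hD : D g = 1)
    (ht : Transcendental ℚ g) (hDg1 : D g1 ≠ 0) (a b c d : ℚ)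
    (hu : D g1 / g1 = a * (D g / g) + b * (D h / h))
    (hv : D h1 / h1 = c * (D g / g) + d * (D h / h)) : Orbit g h g1 h1 := by
  have hh' : h = 1 - g := by rw [← hgh]; ring
  have hh1' : h1 = 1 - g1 := by rw [← h11]; ring
  have hDh : D h = -1 := by
    rw [hh', map_sub, Derivation.map_one_eq_zero, hD]; ring
  have hDh1 : D h1 = -D g1 := by
    rw [hh1', map_sub, Derivation.map_one_eq_zero]; ring
  subst hh'
  subst hh1'
  rw [hD, hDh] at hu hv
  rw [hDh1] at hv
  -- irrationality of `g1`
  have hirr : ∀ p q : ℚ, g1 * p + (1 - g1) * q = 0 → p = 0 ∧ q = 0 := by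
    intro p q hpq
    have hDrat : ∀ q : ℚ, D (q : ℂ) = 0 := fun q => by
      have := D.map_algebraMap q
      simpa using this
    have h1 := congrArg D hpq
    simp only [Derivation.leibniz, map_sub, map_add, hDrat, smul_eq_mul,
      Derivation.map_one_eq_zero, map_zero] at h1
    have h2 : D g1 * ((p : ℂ) - q) = 0 := by linear_combination h1
    have h3 : (p : ℂ) - q = 0 := (mul_eq_zero.mp h2).resolve_left hDg1
    have h4 : p = q := by
      have : (p : ℂ) = q := by linear_combination h3
      exact_mod_cast this
    subst h4
    have h5 : (p : ℂ) = 0 := by linear_combination hpq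
    have h6 : p = 0 := by exact_mod_cast h5
    exact ⟨h6, h6⟩
  have hdet : a * d - b * c ≠ 0 := by
    intro h0
    have h0' : (a : ℂ) * d - b * c = 0 := by exact_mod_cast h0
    have e1 : (d : ℂ) * (D g1 / g1) - b * (-D g1 / (1 - g1)) = 0 := by
      rw [hu, hv]
      linear_combination (1 / g) * h0'
    have e2 : (c : ℂ) * (D g1 / g1) - a * (-D g1 / (1 - g1)) = 0 := by
      rw [hu, hv]
      linear_combination -(-1 / (1 - g)) * h0'
    have e3 : g1 * (b : ℂ) + (1 - g1) * d = 0 := by
      have : D g1 * (g1 * (b : ℂ) + (1 - g1) * d) = 0 := by
        have h1 : ((d : ℂ) * (D g1 / g1) - b * (-D g1 / (1 - g1))) * (g1 * (1 - g1)) =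
            D g1 * (g1 * (b : ℂ) + (1 - g1) * d) := by
          field_simp
          ring
        rw [← h1, e1, zero_mul]
      exact (mul_eq_zero.mp this).resolve_left hDg1
    have e4 : g1 * (a : ℂ) + (1 - g1) * c = 0 := by
      have : D g1 * (g1 * (a : ℂ) + (1 - g1) * c) = 0 := by
        have h1 : ((c : ℂ) * (D g1 / g1) - a * (-D g1 / (1 - g1))) * (g1 * (1 - g1)) =
            D g1 * (g1 * (a : ℂ) + (1 - g1) * c) := by
          field_simp
          ring
        rw [← h1, e2, zero_mul]
      exact (mul_eq_zero.mp this).resolve_left hDg1
    obtain ⟨hb, hd⟩ := hirr _ _ e3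
    obtain ⟨ha, hc⟩ := hirr _ _ e4
    rw [ha, hb] at hu
    have : D g1 / g1 = 0 := by rw [hu]; push_cast; ring
    rcases div_eq_zero_iff.mp this with h1 | h1
    · exact hDg1 h1
    · exact hg1 h1
  have hM : g1 * (((c : ℂ) + d - a - b) * g + (a - c)) = ((c : ℂ) + d) * g - c := by
    have e0 : g1 * (D g1 / g1) + (1 - g1) * (-D g1 / (1 - g1)) = 0 := by
      field_simp
      ring
    rw [hu, hv] at e0
    have e1 : (g1 * (a * (1 / g) + b * (-1 / (1 - g))) + (1 - g1) * (c * (1 / g) +
        d * (-1 / (1 - g)))) * (g * (1 - g)) = 0 := by
      rw [e0, zero_mul]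
    have e2 : (g1 * (a * (1 / g) + b * (-1 / (1 - g))) + (1 - g1) * (c * (1 / g) +
        d * (-1 / (1 - g)))) * (g * (1 - g)) =
        g1 * (a * (1 - g) - b * g) + (1 - g1) * (c * (1 - g) - d * g) := by
      field_simp
      ring
    rw [e2] at e1
    linear_combination e1
  have hDM := congrArg D hM
  have hDrat : ∀ q : ℚ, D (q : ℂ) = 0 := fun q => by
    have := D.map_algebraMap q
    simpa using this
  have hDs : D g1 * (((c : ℂ) + d - a - b) * g + (a - c)) + g1 * ((c : ℂ) + d - a - b) =
      (c : ℂ) + d := by
    simp only [Derivation.leibniz, map_sub, map_add, hDrat, hD, smul_eq_mul] at hDM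
    linear_combination hDM
  have hDs2 : D g1 * (g * (1 - g)) = g1 * (a - ((a : ℂ) + b) * g) := by
    have e1 : D g1 = g1 * (a * (1 / g) + b * (-1 / (1 - g))) := by
      rw [← hu, mul_div_cancel₀ _ hg1]
    rw [e1]
    field_simp
    ring
  have hcub : (((c : ℂ) + d) * g - c) * (((c : ℂ) + d - a - b) * g + (a - c)) *
      (a - ((a : ℂ) + b) * g) = ((a : ℂ) * d - b * c) * (g * (1 - g)) := by
    set L2 : ℂ := ((c : ℂ) + d - a - b) * g + (a - c) with hL2
    set L1 : ℂ := ((c : ℂ) + d) * g - c with hL1
    have e1 : D g1 * L2 * (g * (1 - g)) * L2 = ((c : ℂ) + d - g1 * ((c : ℂ) + d - a - b)) *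
        (g * (1 - g)) * L2 := by
      linear_combination ((g * (1 - g)) * L2) * hDs
    have e2 : D g1 * L2 * (g * (1 - g)) * L2 = g1 * L2 * L2 * (a - ((a : ℂ) + b) * g) := by
      calc D g1 * L2 * (g * (1 - g)) * L2 = (D g1 * (g * (1 - g))) * L2 * L2 := by ring
        _ = g1 * L2 * L2 * (a - ((a : ℂ) + b) * g) := by rw [hDs2]; ring
    rw [e2, hM] at e1
    rw [e1]
    have e3 : ((c : ℂ) + d - g1 * ((c : ℂ) + d - a - b)) * (g * (1 - g)) * L2 =
        (((c : ℂ) + d) * L2 - (g1 * L2) * ((c : ℂ) + d - a - b)) * (g * (1 - g)) := by ring
    rw [e3, hM, hL1, hL2]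
    ring
  obtain ⟨k0, k1, k2⟩ := cubic_identity ht a b c d hcub
  have key : g1 = g ∨ g1 = (1 - g) ∨ g1 = 1 / g ∨ g1 = -(1 - g) / g ∨ g1 = 1 / (1 - g) ∨
      g1 = -g / (1 - g) := by
    rcases mul_eq_zero.mp k0 with k0 | ha
    · rcases mul_eq_zero.mp k0 with hc | hac
      · -- c = 0
        subst hc
        rcases mul_eq_zero.mp k1 with k1 | hb
        · rcases mul_eq_zero.mp k1 with hd | hbd
          · exact absurd (by rw [hd]; ring) hdet
          · -- b = d
            have hb : b = d := by linarith
            subst hb
            have ha0 : a ≠ 0 := by rintro rfl; apply hdet; ring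
            have hb0 : b ≠ 0 := by rintro rfl; apply hdet; ring
            have hab : a + b = 0 := by
              rcases mul_eq_zero.mp k2 with k2 | k2
              · rcases mul_eq_zero.mp k2 with k2 | k2
                · exact absurd (by linarith) hb0
                · exact absurd (by linarith) ha0
              · exact k2
            have hb' : b = -a := by linarith
            subst hb'
            right; right; right; right; right
            have ha' : (a : ℂ) ≠ 0 := by exact_mod_cast ha0
            rw [eq_div_iff hh]
            push_cast at hM
            apply mul_left_cancel₀ ha'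
            linear_combination hM
        · -- c = 0, b = 0
          subst hb
          have ha0 : a ≠ 0 := by rintro rfl; apply hdet; ring
          have hd0 : d ≠ 0 := by rintro rfl; apply hdet; ring
          have had : a = d := by
            rcases mul_eq_zero.mp k2 with k2 | k2
            · rcases mul_eq_zero.mp k2 with k2 | k2
              · exact absurd (by linarith) hd0
              · linarith
            · exact absurd (by linarith) ha0
          subst had
          left
          have ha' : (a : ℂ) ≠ 0 := by exact_mod_cast ha0
          push_cast at hM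
          apply mul_left_cancel₀ ha'
          linear_combination hM
      · -- a = c
        have hac' : a = c := by linarith
        subst hac'
        rcases mul_eq_zero.mp k1 with k1 | hb
        · rcases mul_eq_zero.mp k1 with hd | hbd
          · -- d = 0
            subst hd
            have ha0 : a ≠ 0 := by rintro rfl; apply hdet; ring
            have hb0 : b ≠ 0 := by rintro rfl; apply hdet; ring
            have hab : a + b = 0 := by
              rcases mul_eq_zero.mp k2 with k2 | k2
              · rcases mul_eq_zero.mp k2 with k2 | k2
                · exact absurd (by linarith) ha0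
                · exact absurd (by linarith) hb0
              · exact k2
            have hb' : b = -a := by linarith
            subst hb'
            right; right; right; left
            have ha' : (a : ℂ) ≠ 0 := by exact_mod_cast ha0
            rw [eq_div_iff hg]
            push_cast at hM
            apply mul_left_cancel₀ ha'
            linear_combination hM
          · exact absurd (by
              have : b = d := by linarith
              rw [this]; ring) hdet
        · -- b = 0
          subst hb
          have ha0 : a ≠ 0 := by rintro rfl; apply hdet; ring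
          have hd0 : d ≠ 0 := by rintro rfl; apply hdet; ring
          have hcd : a + d = 0 := by
            rcases mul_eq_zero.mp k2 with k2 | k2
            · rcases mul_eq_zero.mp k2 with k2 | k2
              · exact k2
              · exact absurd (by linarith) hd0
            · exact absurd (by linarith) ha0
          have hd' : d = -a := by linarith
          subst hd'
          right; right; left
          have ha' : (a : ℂ) ≠ 0 := by exact_mod_cast ha0
          rw [eq_div_iff hg]
          push_cast at hM
          apply mul_left_cancel₀ ha'
          linear_combination -hM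
    · -- a = 0
      subst ha
      rcases mul_eq_zero.mp k1 with k1 | hb
      · rcases mul_eq_zero.mp k1 with hd | hbd
        · -- d = 0
          subst hd
          have hc0 : c ≠ 0 := by rintro rfl; apply hdet; ring
          have hb0 : b ≠ 0 := by rintro rfl; apply hdet; ring
          have hcb : c = b := by
            rcases mul_eq_zero.mp k2 with k2 | k2
            · rcases mul_eq_zero.mp k2 with k2 | k2
              · exact absurd (by linarith) hc0
              · linarith
            · exact absurd (by linarith) hb0
          subst hcb
          right; left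
          have hc' : (c : ℂ) ≠ 0 := by exact_mod_cast hc0
          push_cast at hM
          apply mul_left_cancel₀ hc'
          linear_combination -hM
        · -- b = d
          have hb : b = d := by linarith
          subst hb
          have hc0 : c ≠ 0 := by rintro rfl; apply hdet; ring
          have hb0 : b ≠ 0 := by rintro rfl; apply hdet; ring
          have hcd : c + b = 0 := by
            rcases mul_eq_zero.mp k2 with k2 | k2
            · rcases mul_eq_zero.mp k2 with k2 | k2
              · exact k2
              · exact absurd (by linarith) hc0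
            · exact absurd (by linarith) hb0
          have hc' : c = -b := by linarith
          subst hc'
          right; right; right; right; left
          have hb' : (b : ℂ) ≠ 0 := by exact_mod_cast hb0
          rw [eq_div_iff hh]
          push_cast at hM
          apply mul_left_cancel₀ hb'
          linear_combination hM
      · exact absurd (by rw [hb]; ring) hdet
  exact orbit_of_fst hgh h11 hg hh key

end Q123.SR
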