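import Mathlib
import Pool.Agent.Q123.SR.Orb
import Pool.Agent.Q123.US.Count

/-!
# The equation `g + h = 1` in the group generated by two numbers

Let `K` be a subfield of `ℂ` which contains all complex numbers algebraic over `K`, and let `x` and
`y` be complex numbers different from `0`. We consider the numbers `a x^s y^t`, `a ∈ K`, `a ≠ 0`,
with rational `s`, `t`.
-/

set_option autoImplicit false

namespace Q123.SR

open Complex Q123.US

/-- a derivation over `K` with value one at a number outside `K` -/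
theorem exists_der_over {K : Subfield ℂ} (hK : ∀ z : ℂ, IsAlgebraic K z → z ∈ K) {t : ℂ}
    (ht : t ∉ K) : ∃ D : Derivation ℚ ℂ ℂ, (∀ z ∈ K, D z = 0) ∧ D t = 1 := by
  have h1 : Transcendental K t := fun h => ht (hK t h)
  have h2 : AlgebraicIndependent K (fun _ : Unit => t) :=
    (algebraicIndependent_unique_type_iff (R := K)).mpr h1
  obtain ⟨D, hD⟩ := Pool.Agent.H135R2.VS.exists_der h2 (fun _ => (1 : ℂ))
  refine ⟨Derivation.mk' ((D : ℂ →ₗ[K] ℂ).toAddMonoidHom.toRatLinearMap) ?_, ?_, ?_⟩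
  · intro a b
    exact D.leibniz a b
  · intro z hz
    exact D.map_algebraMap ⟨z, hz⟩
  · exact hD ()

/-- the monomial `x^s y^t` -/
noncomputable def mon (x y : ℂ) (w : ℚ × ℚ) : ℂ := x ^ (w.1 : ℂ) * y ^ (w.2 : ℂ)

/-- `z = a x^s y^t` with `a ∈ K`, `a ≠ 0` -/
def Rep2 (K : Subfield ℂ) (x y z : ℂ) (w : ℚ × ℚ) : Prop := ∃ a ∈ K, a ≠ 0 ∧ z = a * mon x y w

/-- a solution of `g + h = 1` with exponents `u`, `v` -/
structure Sol2 (K : Subfield ℂ) (x y g h : ℂ) (u v : ℚ × ℚ) : Prop where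
  sum : g + h = 1
  trans : g ∉ K
  repg : Rep2 K x y g u
  reph : Rep2 K x y h v

variable {K : Subfield ℂ} {x y : ℂ}

theorem mon_eq (hx : x ≠ 0) (hy : y ≠ 0) (w : ℚ × ℚ) :
    mon x y w = exp (w.1 * log x + w.2 * log y) := by
  unfold mon
  rw [cpow_def_of_ne_zero hx, cpow_def_of_ne_zero hy, ← exp_add]
  congr 1
  ring

theorem mon_ne (hx : x ≠ 0) (hy : y ≠ 0) (w : ℚ × ℚ) : mon x y w ≠ 0 := by
  rw [mon_eq hx hy]
  exact exp_ne_zero _

theorem mon_add (hx : x ≠ 0) (hy : y ≠ 0) (w w' : ℚ × ℚ) :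
    mon x y (w + w') = mon x y w * mon x y w' := by
  rw [mon_eq hx hy, mon_eq hx hy, mon_eq hx hy, ← exp_add]
  congr 1
  simp only [Prod.fst_add, Prod.snd_add]
  push_cast
  ring

theorem mon_neg (hx : x ≠ 0) (hy : y ≠ 0) (w : ℚ × ℚ) : mon x y (-w) = (mon x y w)⁻¹ := by
  rw [mon_eq hx hy, mon_eq hx hy, ← exp_neg]
  congr 1
  simp only [Prod.fst_neg, Prod.snd_neg]
  push_cast
  ring

theorem der_mon (hx : x ≠ 0) (hy : y ≠ 0) (D : Derivation ℚ ℂ ℂ) (w : ℚ × ℚ) :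
    D (mon x y w) = mon x y w * (w.1 * dl D (log x) + w.2 * dl D (log y)) := by
  rw [mon_eq hx hy, der_exp, map_add]
  congr 2
  · have : ((w.1 : ℂ) * log x) = w.1 • log x := by rw [Algebra.smul_def]; rfl
    rw [this, map_smul, Algebra.smul_def]
    rfl
  · have : ((w.2 : ℂ) * log y) = w.2 • log y := by rw [Algebra.smul_def]; rfl
    rw [this, map_smul, Algebra.smul_def]
    rfl

namespace Rep2

variable {z z' : ℂ} {w w' : ℚ × ℚ}

theorem ne_zero (hx : x ≠ 0) (hy : y ≠ 0) (h : Rep2 K x y z w) : z ≠ 0 := by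
  obtain ⟨a, -, ha, rfl⟩ := h
  exact mul_ne_zero ha (mon_ne hx hy w)

theorem mul (hx : x ≠ 0) (hy : y ≠ 0) (h : Rep2 K x y z w) (h' : Rep2 K x y z' w') :
    Rep2 K x y (z * z') (w + w') := by
  obtain ⟨a, ha, ha0, rfl⟩ := h
  obtain ⟨b, hb, hb0, rfl⟩ := h'
  refine ⟨a * b, K.mul_mem ha hb, mul_ne_zero ha0 hb0, ?_⟩
  rw [mon_add hx hy]
  ring

theorem inv (hx : x ≠ 0) (hy : y ≠ 0) (h : Rep2 K x y z w) : Rep2 K x y z⁻¹ (-w) := by
  obtain ⟨a, ha, ha0, rfl⟩ := h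
  refine ⟨a⁻¹, K.inv_mem ha, inv_ne_zero ha0, ?_⟩
  rw [mon_neg hx hy, mul_inv]

theorem div (hx : x ≠ 0) (hy : y ≠ 0) (h : Rep2 K x y z w) (h' : Rep2 K x y z' w') :
    Rep2 K x y (z / z') (w - w') := by
  rw [div_eq_mul_inv, sub_eq_add_neg]
  exact h.mul hx hy (h'.inv hx hy)

theorem neg (h : Rep2 K x y z w) : Rep2 K x y (-z) w := by
  obtain ⟨a, ha, ha0, rfl⟩ := h
  exact ⟨-a, K.neg_mem ha, neg_ne_zero.mpr ha0, by ring⟩

theorem der (hx : x ≠ 0) (hy : y ≠ 0) (h : Rep2 K x y z w) (D : Derivation ℚ ℂ ℂ)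
    (hD : ∀ z ∈ K, D z = 0) : D z = z * (w.1 * dl D (log x) + w.2 * dl D (log y)) := by
  obtain ⟨a, ha, ha0, rfl⟩ := h
  rw [Derivation.leibniz, hD a ha, smul_zero, add_zero, smul_eq_mul, der_mon hx hy, mul_assoc]

end Rep2

namespace Sol2

variable {g h : ℂ} {u v : ℚ × ℚ}

theorem swap (S : Sol2 K x y g h u v) : Sol2 K x y h g v u := by
  refine ⟨by rw [add_comm]; exact S.sum, ?_, S.reph, S.repg⟩
  intro hh
  apply S.trans
  have : g = 1 - h := by rw [← S.sum]; ring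
  rw [this]
  exact K.sub_mem K.one_mem hh

theorem inv (hx : x ≠ 0) (hy : y ≠ 0) (S : Sol2 K x y g h u v) :
    Sol2 K x y (1 / g) (-h / g) (-u) (v - u) := by
  have hg := S.repg.ne_zero hx hy
  refine ⟨?_, ?_, ?_, ?_⟩
  · field_simp
    linear_combination -S.sum
  · intro hh
    apply S.trans
    rw [one_div] at hh
    have := K.inv_mem hh
    rwa [inv_inv] at this
  · rw [one_div]; exact S.repg.inv hx hy
  · rw [neg_div]; exact (S.reph.div hx hy S.repg).neg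

/-- values of a derivation with `D g = 1` -/
theorem der_eqs (hx : x ≠ 0) (hy : y ≠ 0) (S : Sol2 K x y g h u v) (D : Derivation ℚ ℂ ℂ)
    (hD : ∀ z ∈ K, D z = 0) (hDg : D g = 1) :
    g * (u.1 * dl D (log x) + u.2 * dl D (log y)) = 1 ∧
    h * (v.1 * dl D (log x) + v.2 * dl D (log y)) = -1 := by
  have hh' : h = 1 - g := by rw [← S.sum]; ring
  have hDh : D h = -1 := by
    rw [hh', map_sub, Derivation.map_one_eq_zero, hDg]; ring
  exact ⟨by rw [← S.repg.der hx hy D hD, hDg], by rw [← S.reph.der hx hy D hD, hDh]⟩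

theorem irr (S : Sol2 K x y g h u v) (p q : ℚ) (hpq : g * p + h * q = 0) : p = 0 ∧ q = 0 := by
  have hh : h = 1 - g := by rw [← S.sum]; ring
  have hrat : ∀ q : ℚ, (q : ℂ) ∈ K := fun q => by
    have := K.toSubring.toSubsemiring
    exact SubfieldClass.ratCast_mem K q
  have h1 : g * ((p : ℂ) - q) = -(q : ℂ) := by rw [hh] at hpq; linear_combination hpq
  by_cases hne : p = q
  · subst hne
    rw [sub_self, mul_zero] at h1
    have : (p : ℂ) = 0 := by linear_combination h1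
    have : p = 0 := by exact_mod_cast this
    exact ⟨this, this⟩
  · exfalso
    have hne' : ((p : ℂ) - q) ≠ 0 := by
      rw [sub_ne_zero]
      exact_mod_cast hne
    have h2 : g = ((-(q : ℚ) / (p - q) : ℚ) : ℂ) := by
      push_cast
      rw [eq_div_iff hne', h1]
    apply S.trans
    rw [h2]
    exact hrat _

/-- a combination of the exponents which is killed by a derivation with `D g = 1` is zero -/
theorem comb_zero (hx : x ≠ 0) (hy : y ≠ 0) (S : Sol2 K x y g h u v) (D : Derivation ℚ ℂ ℂ)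
    (hD : ∀ z ∈ K, D z = 0) (hDg : D g = 1) (p q : ℚ)
    (h0 : (p : ℂ) * (u.1 * dl D (log x) + u.2 * dl D (log y)) +
      q * (v.1 * dl D (log x) + v.2 * dl D (log y)) = 0) : p = 0 ∧ q = 0 := by
  obtain ⟨e1, e2⟩ := S.der_eqs hx hy D hD hDg
  have h1 : g * ((-q : ℚ) : ℂ) + h * (p : ℂ) = 0 := by
    push_cast
    linear_combination (g * h) * h0 - (p : ℂ) * h * e1 - (q : ℂ) * g * e2
  obtain ⟨h2, h3⟩ := S.irr _ _ h1
  exact ⟨h3, by linarith⟩

/-- the determinant of the exponents -/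
theorem det_ne (hx : x ≠ 0) (hy : y ≠ 0) (hK : ∀ z : ℂ, IsAlgebraic K z → z ∈ K)
    (S : Sol2 K x y g h u v) : u.1 * v.2 - u.2 * v.1 ≠ 0 := by
  obtain ⟨D, hD, hDg⟩ := exists_der_over hK S.trans
  intro h0
  have h0' : (u.1 : ℂ) * v.2 - u.2 * v.1 = 0 := by exact_mod_cast h0
  have e1 := S.comb_zero hx hy D hD hDg v.1 (-u.1) (by
    push_cast
    linear_combination -dl D (log y) * h0')
  have e2 := S.comb_zero hx hy D hD hDg v.2 (-u.2) (by
    push_cast
    linear_combination dl D (log x) * h0')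
  obtain ⟨k1, -⟩ := S.der_eqs hx hy D hD hDg
  have k2 : u.1 = 0 := by linarith [e1.2]
  have k3 : u.2 = 0 := by linarith [e2.2]
  rw [k2, k3] at k1
  simp at k1

/-- **The exponents of every monomial are rational combinations.** -/
theorem cramer (hx : x ≠ 0) (hy : y ≠ 0) (hK : ∀ z : ℂ, IsAlgebraic K z → z ∈ K)
    (S : Sol2 K x y g h u v) (w : ℚ × ℚ) : ∃ a b : ℚ, w.1 = a * u.1 + b * v.1 ∧
      w.2 = a * u.2 + b * v.2 := by
  have h0 := S.det_ne hx hy hK
  refine ⟨(w.1 * v.2 - w.2 * v.1) / (u.1 * v.2 - u.2 * v.1),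
    (u.1 * w.2 - u.2 * w.1) / (u.1 * v.2 - u.2 * v.1), ?_, ?_⟩
  · rw [div_mul_eq_mul_div, div_mul_eq_mul_div, ← add_div, eq_div_iff h0]
    ring
  · rw [div_mul_eq_mul_div, div_mul_eq_mul_div, ← add_div, eq_div_iff h0]
    ring

/-- **No monomial lies in `K`.** -/
theorem mono_zero (hx : x ≠ 0) (hy : y ≠ 0) (hK : ∀ z : ℂ, IsAlgebraic K z → z ∈ K)
    (S : Sol2 K x y g h u v) {w : ℚ × ℚ} (hw : mon x y w ∈ K) : w = 0 := by
  obtain ⟨D, hD, hDg⟩ := exists_der_over hK S.trans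
  obtain ⟨a, b, e1, e2⟩ := S.cramer hx hy hK w
  have h1 := der_mon hx hy D w
  rw [hD _ hw] at h1
  have h2 := (mul_eq_zero.mp h1.symm).resolve_left (mon_ne hx hy w)
  rw [e1, e2] at h2
  push_cast at h2
  obtain ⟨h3, h4⟩ := S.comb_zero hx hy D hD hDg a b (by linear_combination h2)
  ext
  · rw [e1, h3, h4]; simp
  · rw [e2, h3, h4]; simp

/-- **Two solutions.** -/
theorem orbit (hx : x ≠ 0) (hy : y ≠ 0) (hK : ∀ z : ℂ, IsAlgebraic K z → z ∈ K)
    (S : Sol2 K x y g h u v) {g1 h1 : ℂ} {u1 v1 : ℚ × ℚ} (S1 : Sol2 K x y g1 h1 u1 v1) :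
    Orbit g h g1 h1 := by
  obtain ⟨D, hD, hDg⟩ := exists_der_over hK S.trans
  obtain ⟨a, b, e1, e2⟩ := S.cramer hx hy hK u1
  obtain ⟨c, d, e3, e4⟩ := S.cramer hx hy hK v1
  have hg := S.repg.ne_zero hx hy
  have hh := S.reph.ne_zero hx hy
  have hg1 := S1.repg.ne_zero hx hy
  have hh1 := S1.reph.ne_zero hx hy
  have d1 := S.repg.der hx hy D hD
  have d2 := S.reph.der hx hy D hD
  have d3 := S1.repg.der hx hy D hD
  have d4 := S1.reph.der hx hy D hD
  have ht : Transcendental ℚ g := by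
    intro halg
    exact S.trans (hK g (halg.extendScalars (algebraMap ℚ K).injective))
  have hDg1 : D g1 ≠ 0 := by
    intro h0
    have hDh1 : D h1 = 0 := by
      have : h1 = 1 - g1 := by rw [← S1.sum]; ring
      rw [this, map_sub, Derivation.map_one_eq_zero, h0, sub_zero]
    rw [h0] at d3
    rw [hDh1] at d4
    have k1 := (mul_eq_zero.mp d3.symm).resolve_left hg1
    have k2 := (mul_eq_zero.mp d4.symm).resolve_left hh1
    have hdet := S1.det_ne hx hy hK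
    have hdet' : (u1.1 : ℂ) * v1.2 - u1.2 * v1.1 ≠ 0 := by exact_mod_cast hdet
    have k3 : dl D (log x) = 0 := by
      apply mul_left_cancel₀ hdet'
      linear_combination (v1.2 : ℂ) * k1 - (u1.2 : ℂ) * k2
    have k4 : dl D (log y) = 0 := by
      apply mul_left_cancel₀ hdet'
      linear_combination (u1.1 : ℂ) * k2 - (v1.1 : ℂ) * k1
    obtain ⟨k5, -⟩ := S.der_eqs hx hy D hD hDg
    rw [k3, k4] at k5
    simp at k5
  refine orbit_core D S.sum S1.sum hg hh hg1 hh1 hDg ht hDg1 a b c d ?_ ?_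
  · rw [d1, d2, d3, e1, e2]
    push_cast
    field_simp
    ring
  · rw [d1, d2, d4, e3, e4]
    push_cast
    field_simp
    ring

/-- exponents are unique -/
theorem rep_unique (hx : x ≠ 0) (hy : y ≠ 0) (hK : ∀ z : ℂ, IsAlgebraic K z → z ∈ K)
    (S : Sol2 K x y g h u v) {z : ℂ} {w w' : ℚ × ℚ} (h1 : Rep2 K x y z w)
    (h2 : Rep2 K x y z w') : w = w' := by
  have h3 := h1.div hx hy h2
  rw [div_self (h1.ne_zero hx hy)] at h3
  obtain ⟨a, ha, ha0, he⟩ := h3
  have h4 : mon x y (w - w') ∈ K := by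
    have : mon x y (w - w') = a⁻¹ := by
      exact eq_inv_of_mul_eq_one_right he.symm
    rw [this]
    exact K.inv_mem ha
  exact sub_eq_zero.mp (S.mono_zero hx hy hK h4)

/-- exponents of the six solutions -/
theorem exps (hx : x ≠ 0) (hy : y ≠ 0) (hK : ∀ z : ℂ, IsAlgebraic K z → z ∈ K)
    (S : Sol2 K x y g h u v) {g1 h1 : ℂ} {u1 v1 : ℚ × ℚ} (S1 : Sol2 K x y g1 h1 u1 v1) :
    (g1 = g ∧ h1 = h ∧ u1 = u ∧ v1 = v) ∨ (g1 = h ∧ h1 = g ∧ u1 = v ∧ v1 = u) ∨
    (u1 = -u ∧ v1 = v - u) ∨ (u1 = v - u ∧ v1 = -u) ∨ (u1 = -v ∧ v1 = u - v) ∨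
    (u1 = u - v ∧ v1 = -v) := by
  rcases S.orbit hx hy hK S1 with ⟨H1, H2⟩ | ⟨H1, H2⟩ | ⟨H1, H2⟩ | ⟨H1, H2⟩ | ⟨H1, H2⟩ | ⟨H1, H2⟩
  · left
    subst H1; subst H2
    exact ⟨rfl, rfl, S.rep_unique hx hy hK S1.repg S.repg, S.rep_unique hx hy hK S1.reph S.reph⟩
  · right; left
    subst H1; subst H2
    exact ⟨rfl, rfl, S.rep_unique hx hy hK S1.repg S.reph, S.rep_unique hx hy hK S1.reph S.repg⟩
  · right; right; left
    have h3 := S.inv hx hy
    rw [← H1, ← H2] at h3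
    exact ⟨S.rep_unique hx hy hK S1.repg h3.repg, S.rep_unique hx hy hK S1.reph h3.reph⟩
  · right; right; right; left
    have h3 := (S.inv hx hy).swap
    rw [← H1, ← H2] at h3
    exact ⟨S.rep_unique hx hy hK S1.repg h3.repg, S.rep_unique hx hy hK S1.reph h3.reph⟩
  · right; right; right; right; left
    have h3 := S.swap.inv hx hy
    rw [← H1, ← H2] at h3
    exact ⟨S.rep_unique hx hy hK S1.repg h3.repg, S.rep_unique hx hy hK S1.reph h3.reph⟩
  · right; right; right; right; right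
    have h3 := (S.swap.inv hx hy).swap
    rw [← H1, ← H2] at h3
    exact ⟨S.rep_unique hx hy hK S1.repg h3.repg, S.rep_unique hx hy hK S1.reph h3.reph⟩

theorem exists_orb (hx : x ≠ 0) (hy : y ≠ 0) (S : Sol2 K x y g h u v) (k : Fin 6) :
    ∃ u' v' : ℚ × ℚ, Sol2 K x y (orb g k) (1 - orb g k) u' v' := by
  have hh : h = 1 - g := by rw [← S.sum]; ring
  subst hh
  have hg := S.repg.ne_zero hx hy
  have hh := S.reph.ne_zero hx hy
  have key : ∀ {a b : ℂ} {u' v' : ℚ × ℚ}, Sol2 K x y a b u' v' → orb g k = a →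
      ∃ u' v' : ℚ × ℚ, Sol2 K x y (orb g k) (1 - orb g k) u' v' := by
    intro a b u' v' S' he
    refine ⟨u', v', ?_⟩
    rw [he]
    have : 1 - a = b := by rw [← S'.sum]; ring
    rw [this]
    exact S'
  fin_cases k
  · exact key S rfl
  · exact key S.swap rfl
  · exact key (S.inv hx hy) rfl
  · refine key (S.inv hx hy).swap ?_
    change 1 - 1 / g = -(1 - g) / g
    field_simp
    ring
  · exact key (S.swap.inv hx hy) rfl
  · refine key (S.swap.inv hx hy).swap ?_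
    change 1 - 1 / (1 - g) = -g / (1 - g)
    field_simp
    ring

end Sol2

/-- At most one monomial, up to powers, lies in `K` if `x` does not. -/
theorem mono_line (hx : x ≠ 0) (hy : y ≠ 0) (hK : ∀ z : ℂ, IsAlgebraic K z → z ∈ K) (hxK : x ∉ K)
    {w w' : ℚ × ℚ} (hw : mon x y w ∈ K) (hw' : mon x y w' ∈ K) : w.1 * w'.2 = w.2 * w'.1 := by
  obtain ⟨D, hD, hDx⟩ := exists_der_over hK hxK
  have h1 := der_mon hx hy D w
  have h2 := der_mon hx hy D w'
  rw [hD _ hw] at h1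
  rw [hD _ hw'] at h2
  have h3 := (mul_eq_zero.mp h1.symm).resolve_left (mon_ne hx hy w)
  have h4 := (mul_eq_zero.mp h2.symm).resolve_left (mon_ne hx hy w')
  by_contra hne
  have hdet : (w.1 : ℂ) * w'.2 - w.2 * w'.1 ≠ 0 := by
    rw [sub_ne_zero]
    exact_mod_cast hne
  have h5 : dl D (log x) = 0 := by
    apply mul_left_cancel₀ hdet
    linear_combination (w'.2 : ℂ) * h3 - (w.2 : ℂ) * h4
  rw [dl_apply, exp_log hx, hDx] at h5
  exact one_div_ne_zero hx h5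

end Q123.SR
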