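import Mathlib

/-!
# Intermediate fields of `k(X)` containing a polynomial

Let `E` be a field between `k` and `k(X)` which contains a nonconstant polynomial. Then there is a
nonconstant polynomial `w` such that the polynomials in `E` are exactly the polynomials in `w`.
(Lüroth's theorem gives a generator of `E`; a generator with a pole at infinity is a polynomial.)
-/

set_option autoImplicit false

open Polynomial IntermediateField

namespace Q123.SR

variable {k : Type*} [Field k]

/-- A rational function integral over the polynomials is a polynomial. -/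
theorem exists_poly_of_isIntegral (u : RatFunc k) (h : IsIntegral k[X] u) :
    ∃ w : k[X], algebraMap k[X] (RatFunc k) w = u :=
  IsIntegrallyClosed.isIntegral_iff.mp h

/-- A relation `A(u) = f B(u)` with `deg B < deg A` and `f` in a `k`-algebra `R` makes `u` integral
over `R`. -/
theorem isIntegral_of_rel {R S : Type*} [CommRing R] [CommRing S] [Algebra k R] [Algebra R S]
    [Algebra k S] [IsScalarTower k R S] [Nontrivial R]
    (u : S) (f : R) (A B : k[X]) (hdeg : B.natDegree < A.natDegree)
    (h : aeval u A = algebraMap R S f * aeval u B) : IsIntegral R u := by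
  classical
  have hA : A ≠ 0 := by rintro rfl; simp at hdeg
  have hl : A.leadingCoeff ≠ 0 := leadingCoeff_ne_zero.mpr hA
  set c : R[X] := Polynomial.C (algebraMap k R A.leadingCoeff⁻¹) with hc
  set M : R[X] := c * (A.map (algebraMap k R) - Polynomial.C f * B.map (algebraMap k R)) with hM
  have hinj : Function.Injective (algebraMap k R) := (algebraMap k R).injective
  have hAdeg : (A.map (algebraMap k R)).natDegree = A.natDegree :=
    natDegree_map_eq_of_injective hinj A
  have hBdeg : (Polynomial.C f * B.map (algebraMap k R)).natDegree < A.natDegree := by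
    refine lt_of_le_of_lt (natDegree_C_mul_le _ _) ?_
    rwa [natDegree_map_eq_of_injective hinj B]
  have hNdeg : (A.map (algebraMap k R) - Polynomial.C f * B.map (algebraMap k R)).natDegree
      = A.natDegree := by
    rw [natDegree_sub_eq_left_of_natDegree_lt (by rw [hAdeg]; exact hBdeg), hAdeg]
  have hNlead : (A.map (algebraMap k R) - Polynomial.C f * B.map (algebraMap k R)).leadingCoeff
      = algebraMap k R A.leadingCoeff := by
    rw [leadingCoeff, hNdeg, coeff_sub, coeff_map, coeff_eq_zero_of_natDegree_lt hBdeg, sub_zero]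
    rfl
  refine ⟨M, ?_, ?_⟩
  · rw [Monic, hM, hc, leadingCoeff_C_mul_of_isUnit, hNlead, ← map_mul, inv_mul_cancel₀ hl, map_one]
    exact (IsUnit.map (algebraMap k R) (isUnit_iff_ne_zero.mpr (inv_ne_zero hl)))
  · rw [hM, eval₂_mul, eval₂_sub, eval₂_mul, eval₂_map, eval₂_map, eval₂_C,
      ← IsScalarTower.algebraMap_eq k R S]
    have h1 : eval₂ (algebraMap k S) u A = aeval u A := rfl
    have h2 : eval₂ (algebraMap k S) u B = aeval u B := rfl
    rw [h1, h2, h, eval₂_C, sub_self, mul_zero]

/-- The key step: a field between `k` and `k(X)` generated by `u` with a pole at infinity and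
containing a nonconstant polynomial is generated by a polynomial. -/
theorem isIntegral_gen (u : RatFunc k) [DecidableEq (RatFunc k)]
    (hu : 1 < RatFunc.inftyValuation k u) (f : k[X])
    (hf : f.natDegree ≠ 0) (hfu : algebraMap k[X] (RatFunc k) f ∈ k⟮u⟯) : IsIntegral k[X] u := by
  obtain ⟨A, B, hAB⟩ := (mem_adjoin_simple_iff k _).mp hfu
  have hf0 : f ≠ 0 := by rintro rfl; simp at hf
  have hfr : algebraMap k[X] (RatFunc k) f ≠ 0 := by
    simpa using hf0
  have hB : aeval u B ≠ 0 := by
    intro h; rw [h, div_zero] at hAB; exact hfr hAB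
  have hB0 : B ≠ 0 := by rintro rfl; simp at hB
  have hA0 : A ≠ 0 := by rintro rfl; simp at hAB; exact hf0 hAB
  have h : aeval u A = algebraMap k[X] (RatFunc k) f * aeval u B := by
    rw [hAB]; field_simp
  refine isIntegral_of_rel u f A B ?_ h
  have hv := congrArg (RatFunc.inftyValuation k) h
  rw [map_mul, valuation_aeval_eq_valuation_X_pow_natDegree_of_one_lt_valuation_X _ hu hA0,
    valuation_aeval_eq_valuation_X_pow_natDegree_of_one_lt_valuation_X _ hu hB0] at hv
  have hfv : 1 < RatFunc.inftyValuation k (algebraMap k[X] (RatFunc k) f) := by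
    rw [RatFunc.inftyValuation_apply, RatFunc.inftyValuation.polynomial k hf0]
    rw [← WithZero.exp_zero, WithZero.exp_lt_exp]
    exact_mod_cast Nat.pos_of_ne_zero hf
  by_contra hle
  push Not at hle
  have hu0 : 0 < RatFunc.inftyValuation k u := lt_trans zero_lt_one hu
  have h1 : RatFunc.inftyValuation k u ^ A.natDegree ≤ RatFunc.inftyValuation k u ^ B.natDegree :=
    pow_le_pow_right₀ hu.le hle
  have h2 : RatFunc.inftyValuation k u ^ B.natDegree <
      RatFunc.inftyValuation k (algebraMap k[X] (RatFunc k) f) *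
        RatFunc.inftyValuation k u ^ B.natDegree := by
    exact lt_mul_of_one_lt_left (pow_pos hu0 _) hfv
  rw [← hv] at h2
  exact absurd h2 (not_lt.mpr h1)

/-- adjustment of a generator: some generator has a pole at infinity -/
theorem exists_gen (u : RatFunc k) [DecidableEq (RatFunc k)] (hu : ¬ ∃ c, u = RatFunc.C c) :
    ∃ u' : RatFunc k, k⟮u'⟯ = k⟮u⟯ ∧ 1 < RatFunc.inftyValuation k u' := by
  have hinv : ∀ t : RatFunc k, k⟮t⁻¹⟯ = k⟮t⟯ := by
    intro t
    apply le_antisymm
    · rw [adjoin_simple_le_iff]
      exact inv_mem (mem_adjoin_simple_self k t)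
    · rw [adjoin_simple_le_iff]
      have := inv_mem (mem_adjoin_simple_self k t⁻¹)
      rwa [inv_inv] at this
  have hu0 : u ≠ 0 := by
    rintro rfl
    exact hu ⟨0, by simp⟩
  have hsmall : ∀ t : RatFunc k, t ≠ 0 → RatFunc.inftyValuation k t < 1 →
      1 < RatFunc.inftyValuation k t⁻¹ := by
    intro t ht h
    rw [map_inv₀]
    exact (one_lt_inv₀ (by
      rw [Valuation.pos_iff]; exact ht)).mpr h
  rcases lt_trichotomy (RatFunc.inftyValuation k u) 1 with h | h | h
  · exact ⟨u⁻¹, hinv u, hsmall u hu0 h⟩
  · -- equal degrees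
    set c : k := u.num.leadingCoeff / u.denom.leadingCoeff with hc
    have hd0 : u.denom ≠ 0 := u.denom_ne_zero
    have hn0 : u.num ≠ 0 := by rwa [Ne, RatFunc.num_eq_zero_iff]
    have hdeg : u.num.natDegree = u.denom.natDegree := by
      rw [RatFunc.inftyValuation_apply, RatFunc.inftyValuation_of_nonzero k hu0,
        ← WithZero.exp_zero, WithZero.exp_inj] at h
      unfold RatFunc.intDegree at h
      omega
    set s : RatFunc k := u - RatFunc.C c with hs
    have hs0 : s ≠ 0 := by
      intro h0
      exact hu ⟨c, by rw [hs, sub_eq_zero] at h0; exact h0⟩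
    have hseq : s = algebraMap k[X] (RatFunc k) (u.num - Polynomial.C c * u.denom) /
        algebraMap k[X] (RatFunc k) u.denom := by
      have hdr : algebraMap k[X] (RatFunc k) u.denom ≠ 0 := by simpa using hd0
      rw [hs, map_sub, map_mul, RatFunc.algebraMap_C, sub_div, mul_div_assoc, div_self hdr, mul_one,
        RatFunc.num_div_denom]
    have hnum0 : u.num - Polynomial.C c * u.denom ≠ 0 := by
      intro h0
      rw [h0, map_zero, zero_div] at hseq
      exact hs0 hseq
    have hsmalls : RatFunc.inftyValuation k s < 1 := by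
      rw [RatFunc.inftyValuation_apply, RatFunc.inftyValuation_of_nonzero k hs0,
        ← WithZero.exp_zero, WithZero.exp_lt_exp]
      have hden0 : algebraMap k[X] (RatFunc k) u.denom ≠ 0 := by simpa using hd0
      have hnr0 : algebraMap k[X] (RatFunc k) (u.num - Polynomial.C c * u.denom) ≠ 0 :=
        (map_ne_zero_iff _ (RatFunc.algebraMap_injective k)).mpr hnum0
      rw [hseq, RatFunc.intDegree_div hnr0 hden0, RatFunc.intDegree_polynomial,
        RatFunc.intDegree_polynomial]
      have hlt : (u.num - Polynomial.C c * u.denom).natDegree < u.denom.natDegree ∨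
          u.denom.natDegree = 0 ∧ (u.num - Polynomial.C c * u.denom).natDegree = 0 := by
        have hle : (Polynomial.C c * u.denom).degree = u.denom.degree := by
          rw [degree_C_mul]
          rw [hc]
          exact div_ne_zero (leadingCoeff_ne_zero.mpr hn0) (leadingCoeff_ne_zero.mpr hd0)
        have hdd : u.num.degree = u.denom.degree := by
          rw [degree_eq_natDegree hn0, degree_eq_natDegree hd0, hdeg]
        have := degree_sub_lt_left (hdd.trans hle.symm) hn0 (by
          rw [leadingCoeff_mul, leadingCoeff_C, hc, div_mul_cancel₀]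
          exact leadingCoeff_ne_zero.mpr hd0)
        rw [hdd] at this
        left
        exact natDegree_lt_natDegree hnum0 this
      rcases hlt with h1 | ⟨h1, h2⟩
      · have : ((u.num - Polynomial.C c * u.denom).natDegree : ℤ) < (u.denom.natDegree : ℤ) := by
          exact_mod_cast h1
        linarith
      · exfalso
        apply hu
        rw [RatFunc.eq_C_iff]
        exact ⟨by rw [hdeg]; exact h1, h1⟩
    refine ⟨s⁻¹, ?_, hsmall s hs0 hsmalls⟩
    rw [hinv]
    apply le_antisymm
    · rw [adjoin_simple_le_iff, hs]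
      exact sub_mem (mem_adjoin_simple_self k u) (by
        rw [← RatFunc.algebraMap_eq_C]; exact IntermediateField.algebraMap_mem _ c)
    · rw [adjoin_simple_le_iff]
      have h1 : u = s + RatFunc.C c := by rw [hs]; ring
      rw [h1]
      exact add_mem (mem_adjoin_simple_self k s) (by
        rw [← RatFunc.algebraMap_eq_C]; exact IntermediateField.algebraMap_mem _ c)
  · exact ⟨u, rfl, h⟩

/-- `A(w)` and `B(w)` are coprime if `A`, `B` are. -/
theorem isCoprime_comp {A B : k[X]} (h : IsCoprime A B) (w : k[X]) :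
    IsCoprime (A.comp w) (B.comp w) := by
  obtain ⟨a, b, hab⟩ := h
  refine ⟨a.comp w, b.comp w, ?_⟩
  rw [← mul_comp, ← mul_comp, ← add_comp, hab, one_comp]

/-- A polynomial which is a rational function of the nonconstant polynomial `w` is a polynomial in
`w`. -/
theorem exists_comp_of_mem (w g : k[X]) (hw : w.natDegree ≠ 0)
    (hg : algebraMap k[X] (RatFunc k) g ∈ k⟮algebraMap k[X] (RatFunc k) w⟯) :
    ∃ T : k[X], g = T.comp w := by
  classical
  set ι := algebraMap k[X] (RatFunc k)
  obtain ⟨A, B, hAB⟩ := (mem_adjoin_simple_iff k _).mp hg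
  have haev : ∀ A : k[X], aeval (ι w) A = ι (A.comp w) := by
    intro A
    rw [comp, aeval_def, hom_eval₂]
    congr 1
  rw [haev, haev] at hAB
  by_cases hB : B = 0
  · refine ⟨0, ?_⟩
    rw [hB] at hAB
    simp at hAB
    have : g = 0 := by simpa [ι] using hAB
    rw [this, zero_comp]
  -- divide by the gcd
  set d := gcd A B with hd
  have hd0 : d ≠ 0 := by
    intro h; exact hB ((gcd_eq_zero_iff _ _).mp h).2
  obtain ⟨A', hA'⟩ := gcd_dvd_left A B
  obtain ⟨B', hB'⟩ := gcd_dvd_right A B
  rw [← hd] at hA' hB'
  have hcop : IsCoprime A' B' := by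
    rw [← gcd_isUnit_iff]
    have h3 : Associated (gcd (d * A') (d * B')) (d * gcd A' B') := gcd_mul_left' d A' B'
    rw [← hA', ← hB', ← hd] at h3
    obtain ⟨v, hv⟩ := h3
    have h4 : d * (v : k[X]) = d * gcd A' B' := hv
    have h5 := mul_left_cancel₀ hd0 h4
    rw [← h5]
    exact v.isUnit
  have hB'0 : B' ≠ 0 := by rintro rfl; rw [mul_zero] at hB'; exact hB hB'
  have hcomp0 : ∀ C : k[X], C ≠ 0 → C.comp w ≠ 0 := by
    intro C hC h
    rcases comp_eq_zero_iff.mp h with h1 | ⟨_, h2⟩
    · exact hC h1
    · rw [h2, natDegree_C] at hw; exact hw rfl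
  have hrel : g * B'.comp w = A'.comp w := by
    have h1 : ι (d.comp w) ≠ 0 := by
      simpa [ι] using hcomp0 d hd0
    have h2 : ι (B'.comp w) ≠ 0 := by
      simpa [ι] using hcomp0 B' hB'0
    apply (RatFunc.algebraMap_injective k)
    rw [map_mul]
    change ι g * ι (B'.comp w) = ι (A'.comp w)
    rw [hAB, hA', hB', mul_comp, mul_comp, map_mul, map_mul]
    field_simp
  have hdvd : B'.comp w ∣ A'.comp w := ⟨g, by rw [← hrel, mul_comm]⟩
  have hunit : IsUnit (B'.comp w) :=
    (isCoprime_comp hcop w).symm.isUnit_of_dvd hdvd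
  have hdegB : B'.natDegree = 0 := by
    have := natDegree_eq_zero_of_isUnit hunit
    rw [natDegree_comp] at this
    rcases Nat.mul_eq_zero.mp this with h | h
    · exact h
    · exact absurd h hw
  obtain ⟨b, hb⟩ := natDegree_eq_zero.mp hdegB
  have hb0 : b ≠ 0 := by rintro rfl; rw [map_zero] at hb; exact hB'0 hb.symm
  refine ⟨Polynomial.C b⁻¹ * A', ?_⟩
  rw [mul_comp, C_comp, ← hrel, ← hb, C_comp, mul_comm g, ← mul_assoc, ← C_mul,
    inv_mul_cancel₀ hb0, C_1, one_mul]

/-- **Lüroth's theorem for polynomials.** -/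
theorem poly_luroth (E : IntermediateField k (RatFunc k)) (f : k[X]) (hf : f.natDegree ≠ 0)
    (hfE : algebraMap k[X] (RatFunc k) f ∈ E) :
    ∃ w : k[X], w.natDegree ≠ 0 ∧
      ∀ g : k[X], algebraMap k[X] (RatFunc k) g ∈ E ↔ ∃ T : k[X], g = T.comp w := by
  classical
  set u := RatFunc.Luroth.generator E with hu
  have hE : E = k⟮u⟯ := RatFunc.Luroth.eq_adjoin_generator
  have hne : E ≠ ⊥ := by
    intro h
    rw [h, mem_bot] at hfE
    obtain ⟨c, hc⟩ := hfE
    have : f = Polynomial.C c := by
      apply RatFunc.algebraMap_injective k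
      rw [← hc, RatFunc.algebraMap_C, RatFunc.algebraMap_eq_C]
    rw [this, natDegree_C] at hf
    exact hf rfl
  obtain ⟨u', hu', hpole⟩ := exists_gen u (RatFunc.Luroth.generator_ne_C hne)
  rw [← hu'] at hE
  obtain ⟨w, hw⟩ := exists_poly_of_isIntegral u' (isIntegral_gen u' hpole f hf (hE ▸ hfE))
  have hwdeg : w.natDegree ≠ 0 := by
    intro h
    obtain ⟨c, hc⟩ := natDegree_eq_zero.mp h
    rw [← hw, ← hc, RatFunc.algebraMap_C] at hpole
    by_cases hc0 : c = 0
    · rw [hc0, map_zero, map_zero] at hpole
      exact absurd hpole (by simp)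
    · rw [RatFunc.inftyValuation.C k hc0] at hpole
      exact absurd hpole (lt_irrefl 1)
  refine ⟨w, hwdeg, fun g => ⟨fun hg => ?_, ?_⟩⟩
  · apply exists_comp_of_mem w g hwdeg
    rw [hw, ← hE]
    exact hg
  · rintro ⟨T, rfl⟩
    rw [hE, ← hw]
    have haev : algebraMap k[X] (RatFunc k) (T.comp w) =
        aeval (algebraMap k[X] (RatFunc k) w) T := by
      rw [comp, aeval_def, hom_eval₂]
      congr 1
    rw [haev]
    exact (mem_adjoin_simple_iff k _).mpr ⟨T, 1, by simp⟩

end Q123.SR
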