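import Mathlib
import Pool.Agent.Q123.SR.Poly

/-!
# Separated relations between two transcendental elements

Let `k ⊂ K` be fields and `x`, `y ∈ K` transcendental over `k`. We determine all pairs of
polynomials `P`, `Q` over `k` with `P(x) + Q(y) ∈ k`, and all pairs with `P(x) Q(y) ∈ k`.
-/

set_option autoImplicit false

open Polynomial IntermediateField

namespace Q123.SR

variable {k K : Type*} [Field k] [Field K] [Algebra k K] {x y : K}

/-- evaluation of rational functions at a transcendental element -/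
noncomputable def phi (hx : Transcendental k x) : RatFunc k →ₐ[k] K :=
  (k⟮x⟯).val.comp (RatFunc.algEquivOfTranscendental x hx).toAlgHom

theorem phi_poly (hx : Transcendental k x) (P : k[X]) :
    phi hx (algebraMap k[X] (RatFunc k) P) = aeval x P := by
  change ((RatFunc.algEquivOfTranscendental x hx) (algebraMap k[X] (RatFunc k) P) : K) = _
  rw [RatFunc.algEquivOfTranscendental_algebraMap]
  exact (aeval_algHom_apply (k⟮x⟯).val (AdjoinSimple.gen k x) P).symm

theorem mem_iff_phi (hx : Transcendental k x) {z : K} : z ∈ k⟮x⟯ ↔ ∃ f, phi hx f = z := by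
  constructor
  · intro hz
    refine ⟨(RatFunc.algEquivOfTranscendental x hx).symm ⟨z, hz⟩, ?_⟩
    change ((RatFunc.algEquivOfTranscendental x hx)
      ((RatFunc.algEquivOfTranscendental x hx).symm ⟨z, hz⟩) : K) = z
    rw [AlgEquiv.apply_symm_apply]
  · rintro ⟨f, rfl⟩
    exact ((RatFunc.algEquivOfTranscendental x hx) f).2

theorem phi_inj (hx : Transcendental k x) : Function.Injective (phi hx) :=
  (phi hx).toRingHom.injective

/-- **The polynomials in `x` which are rational functions of `y`.** -/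
theorem exists_R (hx : Transcendental k x) (P0 : k[X]) (h0 : P0.natDegree ≠ 0)
    (hmem : aeval x P0 ∈ k⟮y⟯) : ∃ R : k[X], R.natDegree ≠ 0 ∧
      ∀ P : k[X], aeval x P ∈ k⟮y⟯ ↔ ∃ T : k[X], P = T.comp R := by
  obtain ⟨w, hw, h⟩ := poly_luroth ((k⟮y⟯).comap (phi hx)) P0 h0 (by
    change phi hx _ ∈ k⟮y⟯
    rw [phi_poly]
    exact hmem)
  refine ⟨w, hw, fun P => ?_⟩
  rw [← h P]
  change _ ↔ phi hx _ ∈ k⟮y⟯
  rw [phi_poly]

theorem aeval_comp' (T R : k[X]) (x : K) : aeval x (T.comp R) = aeval (aeval x R) T := by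
  rw [aeval_comp]

theorem aeval_inj (hy : Transcendental k y) {P Q : k[X]} (h : aeval y P = aeval y Q) : P = Q := by
  by_contra hne
  exact hy ⟨P - Q, sub_ne_zero.mpr hne, by rw [map_sub, h, sub_self]⟩

theorem aeval_not_const (hx : Transcendental k x) {R : k[X]} (hR : R.natDegree ≠ 0) (a : k) :
    aeval x R ≠ algebraMap k K a := by
  intro h
  have h1 : R = C a := aeval_inj hx (by rw [h, aeval_C])
  rw [h1, natDegree_C] at hR
  exact hR rfl

/-- **Additive relations.** -/
theorem additive (hx : Transcendental k x) (hy : Transcendental k y) (P0 Q0 : k[X])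
    (h0 : P0.natDegree ≠ 0) (c0 : k) (hrel : aeval x P0 + aeval y Q0 = algebraMap k K c0) :
    ∃ R S : k[X], R.natDegree ≠ 0 ∧ S.natDegree ≠ 0 ∧ aeval x R = aeval y S ∧
      (∀ P : k[X], aeval x P ∈ k⟮y⟯ ↔ ∃ T : k[X], P = T.comp R) ∧
      ∀ (P Q : k[X]) (c : k), aeval x P + aeval y Q = algebraMap k K c ↔
        ∃ T : k[X], P = T.comp R ∧ Q = C c - T.comp S := by
  have hmem : ∀ (P Q : k[X]) (c : k), aeval x P + aeval y Q = algebraMap k K c →
      aeval x P ∈ k⟮y⟯ := by
    intro P Q c h
    have : aeval x P = algebraMap k K c - aeval y Q := by rw [← h]; ring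
    rw [this]
    refine sub_mem (IntermediateField.algebraMap_mem _ c) ?_
    exact (mem_adjoin_simple_iff k _).mpr ⟨Q, 1, by simp⟩
  obtain ⟨R, hR, hRP⟩ := exists_R (y := y) hx P0 h0 (hmem P0 Q0 c0 hrel)
  have hRy : aeval x R ∈ k⟮y⟯ := (hRP R).mpr ⟨X, by simp⟩
  obtain ⟨f, hf⟩ := (mem_iff_phi hy).mp hRy
  obtain ⟨T0, hT0⟩ := (hRP P0).mp (hmem P0 Q0 c0 hrel)
  have hT0d : (1 : k[X]).natDegree < T0.natDegree := by
    rw [natDegree_one]
    apply Nat.pos_of_ne_zero
    intro h
    rw [hT0, natDegree_comp, h, zero_mul] at h0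
    exact h0 rfl
  have hfint : IsIntegral k[X] f := by
    refine isIntegral_of_rel f (C c0 - Q0) T0 1 hT0d ?_
    apply phi_inj hy
    rw [map_one, mul_one, phi_poly, ← aeval_algHom_apply, hf, ← aeval_comp', ← hT0, map_sub,
      aeval_C, ← hrel]
    ring
  obtain ⟨S, hS⟩ := exists_poly_of_isIntegral f hfint
  have hRS : aeval x R = aeval y S := by rw [← hf, ← hS, phi_poly]
  have hSd : S.natDegree ≠ 0 := by
    intro h
    obtain ⟨a, ha⟩ := natDegree_eq_zero.mp h
    apply aeval_not_const hx hR a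
    rw [hRS, ← ha, aeval_C]
  refine ⟨R, S, hR, hSd, hRS, hRP, fun P Q c => ⟨fun h => ?_, ?_⟩⟩
  · obtain ⟨T, hT⟩ := (hRP P).mp (hmem P Q c h)
    refine ⟨T, hT, aeval_inj hy ?_⟩
    rw [map_sub, aeval_C, aeval_comp', ← hRS, ← aeval_comp', ← hT, ← h]
    ring
  · rintro ⟨T, hT, hQ⟩
    rw [hT, hQ, map_sub, aeval_C, aeval_comp', aeval_comp', hRS]
    ring

/-- `1 / (f - a)` is a polynomial if `a` is a root of `T` and `T(f) Q` is constant. -/
theorem inv_poly (f : RatFunc k) (T Q : k[X]) (c : k) (hc : c ≠ 0) (hT : T.natDegree ≠ 0) (a : k)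
    (ha : T.IsRoot a) (hfa : f ≠ algebraMap k (RatFunc k) a)
    (hrel : aeval f T * algebraMap k[X] (RatFunc k) Q = algebraMap k (RatFunc k) c) :
    ∃ S : k[X], algebraMap k[X] (RatFunc k) S * (f - algebraMap k (RatFunc k) a) = 1 := by
  set w : RatFunc k := f - algebraMap k (RatFunc k) a with hw
  have hw0 : w ≠ 0 := sub_ne_zero.mpr hfa
  set T2 : k[X] := T.comp (X + C a) with hT2
  have hT2d : T2.natDegree = T.natDegree := by
    rw [hT2, natDegree_comp, natDegree_X_add_C, mul_one]
  have hT20 : T2 ≠ 0 := by rintro h; rw [h, natDegree_zero] at hT2d; exact hT hT2d.symm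
  have hT2c : T2.coeff 0 = 0 := by
    rw [hT2, coeff_zero_eq_eval_zero, eval_comp]
    simpa using ha
  have hT2w : aeval w T2 = aeval f T := by
    rw [hT2, aeval_comp, map_add, aeval_X, aeval_C, hw, sub_add_cancel]
  let : Invertible w := invertibleOfNonzero hw0
  have hrev := eval₂_reverse_mul_pow (algebraMap k (RatFunc k)) w T2
  have hinv : (⅟w : RatFunc k) = w⁻¹ := invOf_eq_inv w
  rw [hinv] at hrev
  have hrev' : aeval w⁻¹ T2.reverse * w ^ T2.natDegree = aeval f T := by
    rw [← hT2w]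
    exact hrev
  have hint : IsIntegral k[X] w⁻¹ := by
    refine isIntegral_of_rel w⁻¹ Q (C c * X ^ T2.natDegree) T2.reverse ?_ ?_
    · rw [natDegree_C_mul_X_pow _ _ hc, reverse_natDegree]
      have h1 : T2.natTrailingDegree ≠ 0 := by
        rw [Ne, natTrailingDegree_eq_zero]
        push Not
        exact ⟨hT20, hT2c⟩
      have h2 : T2.natDegree ≠ 0 := by rw [hT2d]; exact hT
      omega
    · rw [map_mul, map_pow, aeval_X, aeval_C, ← hrel, ← hrev']
      have h1 : w ^ T2.natDegree * w⁻¹ ^ T2.natDegree = 1 := by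
        rw [← mul_pow, mul_inv_cancel₀ hw0, one_pow]
      linear_combination (aeval w⁻¹ T2.reverse * algebraMap k[X] (RatFunc k) Q) * h1
  obtain ⟨S, hS⟩ := exists_poly_of_isIntegral _ hint
  exact ⟨S, by rw [hS, inv_mul_cancel₀ hw0]⟩

/-- Two different roots are impossible. -/
theorem root_unique (f : RatFunc k) (hf : ∀ a : k, f ≠ algebraMap k (RatFunc k) a) {a b : k}
    {S U : k[X]}
    (hS : algebraMap k[X] (RatFunc k) S * (f - algebraMap k (RatFunc k) a) = 1)
    (hU : algebraMap k[X] (RatFunc k) U * (f - algebraMap k (RatFunc k) b) = 1) : a = b := by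
  by_contra hab
  have hconst : ∀ {c : k} {V : k[X]},
      algebraMap k[X] (RatFunc k) V * (f - algebraMap k (RatFunc k) c) = 1 → V.natDegree ≠ 0 := by
    intro c V hV h0
    obtain ⟨v, hv⟩ := natDegree_eq_zero.mp h0
    rw [← hv, RatFunc.algebraMap_C, ← RatFunc.algebraMap_eq_C] at hV
    have hv0 : v ≠ 0 := by
      rintro rfl
      rw [map_zero, zero_mul] at hV
      exact zero_ne_one hV
    apply hf (v⁻¹ + c)
    have hvr : algebraMap k (RatFunc k) v ≠ 0 := by simpa using hv0
    rw [map_add, map_inv₀]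
    have : f = (algebraMap k (RatFunc k) v)⁻¹ *
        (algebraMap k (RatFunc k) v * (f - algebraMap k (RatFunc k) c)) +
        algebraMap k (RatFunc k) c := by
      field_simp
      ring
    rw [this, hV, mul_one]
  have hrel : C (b - a) * (S * U) = U - S := by
    apply RatFunc.algebraMap_injective k
    rw [map_mul (algebraMap k[X] (RatFunc k)), map_mul (algebraMap k[X] (RatFunc k)),
      RatFunc.algebraMap_C, ← RatFunc.algebraMap_eq_C, map_sub (algebraMap k (RatFunc k)),
      map_sub (algebraMap k[X] (RatFunc k))]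
    have : (algebraMap k (RatFunc k) b - algebraMap k (RatFunc k) a) *
        (algebraMap k[X] (RatFunc k) S * algebraMap k[X] (RatFunc k) U) =
        (algebraMap k[X] (RatFunc k) S * (f - algebraMap k (RatFunc k) a)) *
          algebraMap k[X] (RatFunc k) U -
        algebraMap k[X] (RatFunc k) S *
          (algebraMap k[X] (RatFunc k) U * (f - algebraMap k (RatFunc k) b)) := by ring
    rw [this, hS, hU]
    ring
  have hba : b - a ≠ 0 := sub_ne_zero.mpr (Ne.symm hab)
  have hS0 : S ≠ 0 := by rintro rfl; exact hconst hS natDegree_zero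
  have hU0 : U ≠ 0 := by rintro rfl; exact hconst hU natDegree_zero
  have hd := congrArg natDegree hrel
  rw [natDegree_C_mul hba, natDegree_mul hS0 hU0] at hd
  have hle := natDegree_sub_le U S
  have h1 := hconst hS
  have h2 := hconst hU
  omega

/-- **Multiplicative relations.** -/
theorem multiplicative [IsAlgClosed k] (hx : Transcendental k x) (hy : Transcendental k y)
    (P0 Q0 : k[X]) (h0 : P0.natDegree ≠ 0) (c0 : k) (hc0 : c0 ≠ 0)
    (hrel : aeval x P0 * aeval y Q0 = algebraMap k K c0) :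
    ∃ R S : k[X], R.natDegree ≠ 0 ∧ S.natDegree ≠ 0 ∧ aeval x R * aeval y S = 1 ∧
      (∀ P : k[X], aeval x P ∈ k⟮y⟯ ↔ ∃ T : k[X], P = T.comp R) ∧
      ∀ (P Q : k[X]) (c : k), c ≠ 0 → (aeval x P * aeval y Q = algebraMap k K c ↔
        ∃ (n : ℕ) (b : k), b ≠ 0 ∧ P = C b * R ^ n ∧ Q = C (c / b) * S ^ n) := by
  have hmem : ∀ (P Q : k[X]) (c : k), c ≠ 0 → aeval x P * aeval y Q = algebraMap k K c →
      aeval x P ∈ k⟮y⟯ := by
    intro P Q c hc h
    have hQ : aeval y Q ≠ 0 := by
      intro h1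
      rw [h1, mul_zero] at h
      exact hc ((map_eq_zero _).mp h.symm)
    have : aeval x P = algebraMap k K c / aeval y Q := by rw [← h]; field_simp
    rw [this]
    refine div_mem (IntermediateField.algebraMap_mem _ c) ?_
    exact (mem_adjoin_simple_iff k _).mpr ⟨Q, 1, by simp⟩
  obtain ⟨R0, hR0, hRP⟩ := exists_R (y := y) hx P0 h0 (hmem P0 Q0 c0 hc0 hrel)
  have hRy : aeval x R0 ∈ k⟮y⟯ := (hRP R0).mpr ⟨X, by simp⟩
  obtain ⟨f, hf⟩ := (mem_iff_phi hy).mp hRy
  have hfne : ∀ a : k, f ≠ algebraMap k (RatFunc k) a := by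
    intro a h
    apply aeval_not_const hx hR0 a
    rw [← hf, h, AlgHom.commutes]
  -- every relation gives polynomials `1 / (f - a)`
  have hroots : ∀ (T Q : k[X]) (c : k), c ≠ 0 → T.natDegree ≠ 0 →
      aeval x (T.comp R0) * aeval y Q = algebraMap k K c → ∀ a : k, T.IsRoot a →
      ∃ S : k[X], algebraMap k[X] (RatFunc k) S * (f - algebraMap k (RatFunc k) a) = 1 := by
    intro T Q c hc hT h a ha
    refine inv_poly f T Q c hc hT a ha (hfne a) ?_
    apply phi_inj hy
    rw [map_mul, phi_poly, ← aeval_algHom_apply, hf, ← aeval_comp', h, AlgHom.commutes]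
  obtain ⟨T0, hT0⟩ := (hRP P0).mp (hmem P0 Q0 c0 hc0 hrel)
  have hT0d : T0.natDegree ≠ 0 := by
    intro h
    rw [hT0, natDegree_comp, h, zero_mul] at h0
    exact h0 rfl
  obtain ⟨a, ha⟩ := IsAlgClosed.exists_root T0 (by
    intro h
    rw [degree_eq_natDegree (by rintro rfl; exact hT0d natDegree_zero)] at h
    exact hT0d (by exact_mod_cast h))
  obtain ⟨S, hS⟩ := hroots T0 Q0 c0 hc0 hT0d (by rw [← hT0]; exact hrel) a ha
  set R : k[X] := R0 - C a with hR
  have hRd : R.natDegree ≠ 0 := by rw [hR, natDegree_sub_C]; exact hR0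
  have hRS : aeval x R * aeval y S = 1 := by
    have h1 := congrArg (phi hy) hS
    rw [map_mul, phi_poly, map_sub, hf, AlgHom.commutes, map_one] at h1
    rw [hR, map_sub, aeval_C, mul_comm]
    exact h1
  have hSd : S.natDegree ≠ 0 := by
    intro h
    obtain ⟨s, hs⟩ := natDegree_eq_zero.mp h
    rw [← hs, aeval_C] at hRS
    have hs0 : s ≠ 0 := by
      rintro rfl
      rw [map_zero, mul_zero] at hRS
      exact zero_ne_one hRS
    apply aeval_not_const hx hRd s⁻¹
    rw [map_inv₀]
    exact eq_inv_of_mul_eq_one_left hRS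
  have hRP' : ∀ P : k[X], aeval x P ∈ k⟮y⟯ ↔ ∃ T : k[X], P = T.comp R := by
    intro P
    rw [hRP P]
    constructor
    · rintro ⟨T, rfl⟩
      refine ⟨T.comp (X + C a), ?_⟩
      rw [comp_assoc, add_comp, X_comp, C_comp, hR, sub_add_cancel]
    · rintro ⟨T, rfl⟩
      refine ⟨T.comp (X - C a), ?_⟩
      rw [comp_assoc, sub_comp, X_comp, C_comp]
  refine ⟨R, S, hRd, hSd, hRS, hRP', fun P Q c hc => ⟨fun h => ?_, ?_⟩⟩
  · obtain ⟨T, hT⟩ := (hRP P).mp (hmem P Q c hc h)
    by_cases hTd : T.natDegree = 0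
    · -- constant
      obtain ⟨b, hb⟩ := natDegree_eq_zero.mp hTd
      have hPb : P = C b := by rw [hT, ← hb, C_comp]
      have hb0 : b ≠ 0 := by
        rintro rfl
        rw [hPb, C_0, map_zero, zero_mul] at h
        exact hc ((map_eq_zero _).mp h.symm)
      refine ⟨0, b, hb0, by rw [pow_zero, mul_one, hPb], ?_⟩
      rw [pow_zero, mul_one]
      apply aeval_inj hy
      rw [aeval_C, map_div₀, ← h, hPb, aeval_C]
      have : algebraMap k K b ≠ 0 := by simpa using hb0
      field_simp
    · -- all the roots of `T` are equal to `a`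
      have hTr : ∀ b ∈ T.roots, b = a := by
        intro b hb
        obtain ⟨U, hU⟩ := hroots T Q c hc hTd (by rw [← hT]; exact h) b (isRoot_of_mem_roots hb)
        exact root_unique f hfne hU hS
      have hTf : T = C T.leadingCoeff * (X - C a) ^ T.natDegree := by
        have hsp := IsAlgClosed.splits T
        have h1 := hsp.eq_prod_roots
        have h2 : T.roots = Multiset.replicate T.natDegree a := by
          rw [Multiset.eq_replicate]
          exact ⟨(splits_iff_card_roots.mp hsp), hTr⟩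
        rw [h2, Multiset.map_replicate, Multiset.prod_replicate] at h1
        exact h1
      have hT0' : T ≠ 0 := by rintro rfl; exact hTd natDegree_zero
      have hl : T.leadingCoeff ≠ 0 := leadingCoeff_ne_zero.mpr hT0'
      have hPR : P = C T.leadingCoeff * R ^ T.natDegree := by
        rw [hT]
        conv_lhs => rw [hTf]
        rw [mul_comp, C_comp, pow_comp, sub_comp, X_comp, C_comp, hR]
      refine ⟨T.natDegree, T.leadingCoeff, hl, hPR, ?_⟩
      apply aeval_inj hy
      have hl' : algebraMap k K T.leadingCoeff ≠ 0 := by simpa using hl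
      have hRx : aeval x R ≠ 0 := by
        intro h1
        rw [h1, zero_mul] at hRS
        exact zero_ne_one hRS
      have hSy : aeval y S = (aeval x R)⁻¹ := eq_inv_of_mul_eq_one_right hRS
      have h3 : aeval x R ^ T.natDegree * (aeval x R)⁻¹ ^ T.natDegree = 1 := by
        rw [← mul_pow, mul_inv_cancel₀ hRx, one_pow]
      rw [map_mul, aeval_C, map_pow, hSy, map_div₀, ← h, hPR, map_mul, aeval_C, map_pow]
      have h4 : algebraMap k K T.leadingCoeff * aeval x R ^ T.natDegree * aeval y Q /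
          algebraMap k K T.leadingCoeff * (aeval x R)⁻¹ ^ T.natDegree =
          aeval y Q * (aeval x R ^ T.natDegree * (aeval x R)⁻¹ ^ T.natDegree) := by
        field_simp
      rw [h4, h3, mul_one]
  · rintro ⟨n, b, hb, hP, hQ⟩
    have hb' : algebraMap k K b ≠ 0 := by simpa using hb
    rw [hP, hQ, map_mul, map_mul, aeval_C, aeval_C, map_pow, map_pow, map_div₀]
    have : algebraMap k K b * aeval x R ^ n * (algebraMap k K c / algebraMap k K b *
        aeval y S ^ n) = algebraMap k K c * (aeval x R * aeval y S) ^ n := by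
      rw [mul_pow]
      field_simp
    rw [this, hRS, one_pow, mul_one]

/-- **Dichotomy.** There are no nonconstant additive relations or no nonconstant multiplicative
relations. -/
theorem dichotomy [IsAlgClosed k] (hx : Transcendental k x) (hy : Transcendental k y)
    (P0 Q0 P1 Q1 : k[X]) (h0 : P0.natDegree ≠ 0) (h1 : P1.natDegree ≠ 0) (c0 c1 : k)
    (hc1 : c1 ≠ 0) (hadd : aeval x P0 + aeval y Q0 = algebraMap k K c0)
    (hmul : aeval x P1 * aeval y Q1 = algebraMap k K c1) : False := by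
  obtain ⟨R, S, hR, hS, hRS, hRP, -⟩ := additive hx hy P0 Q0 h0 c0 hadd
  obtain ⟨R', S', hR', hS', hRS', hRP', -⟩ := multiplicative hx hy P1 Q1 h1 c1 hc1 hmul
  -- `R' = T(R)`, so `T(S) S' = 1`
  obtain ⟨T, hT⟩ := (hRP R').mp ((hRP' R').mpr ⟨X, by simp⟩)
  have h2 : T.comp S * S' = 1 := by
    apply aeval_inj hy
    rw [map_mul, map_one, aeval_comp', ← hRS, ← aeval_comp', ← hT, hRS']
  have h3 : IsUnit S' := IsUnit.of_mul_eq_one_right _ h2
  exact hS' (natDegree_eq_zero_of_isUnit h3)

end Q123.SR
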